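import Pool.Agent.H93.CP.Targets

/-!
# PTC: points depend continuously on the path
-/

set_option autoImplicit false

open Set Filter Topology Pool.Agent.H93.CP

namespace Pool.Agent.H56.CPT

theorem pf_PTC (hSML : T_SML) (hNES : T_NES) (hPWD : T_PWD) : T_PTC := by
  intro G X _ _ _ _ H C π hπ
  have _h := hNES
  rw [continuous_iff_continuousAt]
  intro b
  rw [ContinuousAt, (nhds_basis_opens (π b)).tendsto_right_iff]
  rintro O ⟨hbO, hO⟩
  obtain ⟨k, hk⟩ := hSML G X H C b.1 (π b) b.2 (hπ b) O hO hbO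
  obtain ⟨w, hw, hwk⟩ := ((hPWD G C.gr).2.2.1 b.1).1 b.2 k
  have hsub := hk w hw hwk.ge
  have hop : IsOpen {b' : {b : C.gr.Path // C.gr.Inf b} | C.gr.Mem w b'.1} := by
    have hc : Continuous (fun b' : {b : C.gr.Path // C.gr.Inf b} => b'.1.1 w) :=
      (continuous_apply w).comp (continuous_subtype_val.comp continuous_subtype_val)
    exact (isOpen_discrete ({true} : Set Bool)).preimage hc
  filter_upwards [hop.mem_nhds hw] with b' hb'
  exact hsub (hπ b' w hb')

end Pool.Agent.H56.CPT
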