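import Pool.Agent.H93.CP.Targets

/-!
# PTS: every point is the point of an infinite path
-/

set_option autoImplicit false

open Set Filter Topology Pool.Agent.H93.CP

namespace Pool.Agent.H56.CPT

section

variable {G X : Type} [Group G] [TopologicalSpace G] [MulAction G X] [MeasurableSpace X]
  {H : Good G X}

/-- one step: an edge with label one -/
theorem edge_one (C : Sch H) (i n : ℕ) (y : H.Y) (hy : y ∈ C.B i) :
    ∃ e : C.gr.E, C.gr.src e = (i, n) ∧ e.1.2.1 = 1 ∧ y ∈ C.B (C.gr.tgt e).1 := by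
  obtain ⟨O', hyO', hO', hcl⟩ : ∃ O' : Set H.Y, y ∈ O' ∧ IsOpen O' ∧ closure O' ⊆ C.B i := by
    obtain ⟨T, hT, hTc, hTs⟩ :=
      exists_mem_nhds_isClosed_subset ((C.opn i).mem_nhds hy)
    obtain ⟨O', hO's, hO', hyO'⟩ := mem_nhds_iff.1 hT
    exact ⟨O', hyO', hO', (closure_minimal hO's hTc).trans hTs⟩
  have hV : ∀ δ : H.D, ∃ V : Set H.Y, IsOpen V ∧ y ∈ V ∧
      ∀ u ∈ V, ∀ v ∈ V, dist (δ • u) (δ • v) ≤ (1 / 2 : ℝ) ^ n := by
    intro δ
    have hpos : (0 : ℝ) < (1 / 2 : ℝ) ^ n / 2 := by positivity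
    refine ⟨(fun u : H.Y => δ • u) ⁻¹' Metric.ball (δ • y) ((1 / 2 : ℝ) ^ n / 2),
      Metric.isOpen_ball.preimage (H.cont δ), ?_, ?_⟩
    · simpa using hpos
    · intro u hu v hv
      have h1 : dist (δ • u) (δ • y) < (1 / 2 : ℝ) ^ n / 2 := hu
      have h2 : dist (δ • v) (δ • y) < (1 / 2 : ℝ) ^ n / 2 := hv
      have h3 := dist_triangle_right (δ • u) (δ • v) (δ • y)
      linarith
  choose V hVo hyV hVd using hV
  have hO : IsOpen (O' ∩ ⋂ δ ∈ C.F n, V δ) :=
    hO'.inter ((C.fin n).isOpen_biInter fun δ _ => hVo δ)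
  have hyO : y ∈ O' ∩ ⋂ δ ∈ C.F n, V δ := ⟨hyO', by
    simp only [mem_iInter]
    exact fun δ _ => hyV δ⟩
  obtain ⟨j, hyj, hj⟩ := C.base y _ hO hyO
  have hEP : C.EP ((i, n), 1, (j, n + 1)) := by
    refine ⟨Nat.lt_succ_self n, ?_, ?_, ?_⟩
    · have h1 : (fun y : H.Y => (1 : H.D) • y) '' C.B j ⊆ O' := by
        rintro _ ⟨u, hu, rfl⟩
        have : (1 : H.D) • u = u := one_smul _ u
        simp only [this]
        exact (hj hu).1
      exact (closure_mono h1).trans hcl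
    · intro δ hδ u hu v hv
      have hu' : u ∈ V δ := by
        have := (hj hu).2
        simp only [mem_iInter] at this
        exact this δ hδ
      have hv' : v ∈ V δ := by
        have := (hj hv).2
        simp only [mem_iInter] at this
        exact this δ hδ
      have := hVd δ u hu' v hv'
      simpa using this
    · intro δ hδ δ' hδ'
      have := C.mul n δ δ' hδ hδ'
      simpa using this
  exact ⟨⟨_, hEP⟩, rfl, rfl, hyj⟩

end

theorem pf_PTS (hNES : T_NES) (hPWD : T_PWD) (hPMK : T_PMK) : T_PTS := by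
  intro G X _ _ _ _ H C y
  obtain ⟨-, n2, -, -, -, n6, -⟩ := hNES G X H C
  obtain ⟨-, p2, -, -, -, p6, -, -⟩ := hPWD G C.gr
  -- states
  let St := {w : List C.gr.E // C.gr.Leg C.gr.root w ∧ C.prD w = 1 ∧
    y ∈ C.B (C.gr.fin C.gr.root w).1}
  have hstep : ∀ s : St, ∃ e : C.gr.E, C.gr.Leg C.gr.root (s.1 ++ [e]) ∧
      C.prD (s.1 ++ [e]) = 1 ∧ y ∈ C.B (C.gr.fin C.gr.root (s.1 ++ [e])).1 := by
    rintro ⟨w, hw, hw1, hwy⟩
    obtain ⟨e, he1, he2, he3⟩ := edge_one C (C.gr.fin C.gr.root w).1 (C.gr.fin C.gr.root w).2 y hwy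
    refine ⟨e, (p6 _ _ _).2 ⟨hw, he1, trivial⟩, ?_, ?_⟩
    · rw [n2, hw1, one_mul]
      simp [Sch.prD, he2]
    · have : C.gr.fin C.gr.root (w ++ [e]) = C.gr.tgt e := by
        simp [Gr.fin]
      simp only [this]
      exact he3
  choose e he using hstep
  have h0 : C.gr.Leg C.gr.root [] ∧ C.prD [] = 1 ∧
      y ∈ C.B (C.gr.fin C.gr.root []).1 := by
    refine ⟨trivial, by simp [Sch.prD], ?_⟩
    have : (C.gr.fin C.gr.root []).1 = 0 := rfl
    rw [this, C.zero]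
    exact mem_univ _
  let ζ : ℕ → St := fun n => Nat.rec ⟨[], h0⟩ (fun _ s => ⟨s.1 ++ [e s], he s⟩) n
  have hz : ∀ n, (ζ (n + 1)).1 = (ζ n).1 ++ [e (ζ n)] := fun n => rfl
  have hlen : ∀ n, n ≤ ((ζ n).1).length := by
    intro n
    induction n with
    | zero => exact Nat.zero_le _
    | succ n ih =>
      rw [hz, List.length_append]
      simp only [List.length_cons, List.length_nil]
      omega
  obtain ⟨z, hinf, hmem⟩ := hPMK G C.gr (fun n => (ζ n).1) (fun n => (ζ n).2.1)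
    (fun n => by
      show (ζ n).1 <+: (ζ (n + 1)).1
      rw [hz]
      exact List.prefix_append _ _) hlen
  refine ⟨z, hinf, ?_⟩
  intro w hw
  have hpre : w <+: (ζ w.length).1 := p2 z w _ hw (hmem _) (hlen _)
  refine n6 w (ζ w.length).1 (ζ w.length).2.1 hpre ?_
  refine ⟨y, (ζ w.length).2.2.2, ?_⟩
  show C.prD (ζ w.length).1 • y = y
  rw [(ζ w.length).2.2.1, one_smul]

end Pool.Agent.H56.CPT
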